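import Pool.Agent.H484.HH.Stm

/-!
# Sum over the residue classes (BOX; written by helper97)
-/

set_option autoImplicit false

open Finset

namespace Pool.Agent.H484.HH

noncomputable section

namespace BoxL

lemma prod_diff {ι : Type} (S : Finset ι) (x y : ι → ℝ) (δ : ℝ) (hδ : 0 ≤ δ)
    (hx : ∀ i ∈ S, |x i| ≤ 3) (hy : ∀ i ∈ S, |y i| ≤ 3) (h : ∀ i ∈ S, |x i - y i| ≤ δ) :
    |∏ i ∈ S, x i - ∏ i ∈ S, y i| ≤ S.card * 3 ^ S.card * δ := by
  classical
  induction S using Finset.induction_on with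
  | empty => simp
  | insert a S ha ih =>
    rw [Finset.prod_insert ha, Finset.prod_insert ha, Finset.card_insert_of_notMem ha]
    have h1 : x a * ∏ i ∈ S, x i - y a * ∏ i ∈ S, y i =
        (x a - y a) * ∏ i ∈ S, x i + y a * (∏ i ∈ S, x i - ∏ i ∈ S, y i) := by ring
    have h2 : |∏ i ∈ S, x i| ≤ 3 ^ S.card := by
      rw [Finset.abs_prod]
      calc ∏ i ∈ S, |x i| ≤ ∏ _i ∈ S, (3 : ℝ) :=
            Finset.prod_le_prod (fun i _ => abs_nonneg _)
              fun i hi => hx i (Finset.mem_insert_of_mem hi)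
        _ = 3 ^ S.card := by rw [Finset.prod_const]
    have h3 := ih (fun i hi => hx i (Finset.mem_insert_of_mem hi))
      (fun i hi => hy i (Finset.mem_insert_of_mem hi))
      (fun i hi => h i (Finset.mem_insert_of_mem hi))
    have h4 := h a (Finset.mem_insert_self a S)
    have h5 := hy a (Finset.mem_insert_self a S)
    rw [h1]
    calc |(x a - y a) * ∏ i ∈ S, x i + y a * (∏ i ∈ S, x i - ∏ i ∈ S, y i)| ≤
        |(x a - y a) * ∏ i ∈ S, x i| + |y a * (∏ i ∈ S, x i - ∏ i ∈ S, y i)| := abs_add_le _ _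
      _ ≤ δ * 3 ^ S.card + 3 * (S.card * 3 ^ S.card * δ) := by
          rw [abs_mul, abs_mul]
          exact add_le_add (mul_le_mul h4 h2 (abs_nonneg _) hδ)
            (mul_le_mul h5 h3 (abs_nonneg _) (by norm_num))
      _ ≤ ((S.card + 1 : ℕ) : ℝ) * 3 ^ (S.card + 1) * δ := by
          have h6 : 0 ≤ δ * 3 ^ S.card := by positivity
          rw [pow_succ]
          push_cast
          nlinarith

/-- the indicator of a finite conjunction -/
lemma ind_all {s : ℕ} (p : Fin s → Prop) [∀ i, Decidable (p i)] :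
    (if ∀ i, p i then (1 : ℝ) else 0) = ∏ i, if p i then (1 : ℝ) else 0 := by
  rw [Finset.prod_ite_zero, Finset.prod_const_one]
  simp

/-- expansion of the product of the indicator functions -/
lemma expand {s K : ℕ} {b : Fin s → ℕ} {c : Fin s → ℕ → ℕ → ℝ} {n : ℕ} (H : Fin s → ℝ)
    (hH : ∀ i, H i = ∑ k ∈ range (K + 1), ∑ a ∈ range (b i ^ k), c i k a *
      (if n % b i ^ k = a then 1 else 0))
    (a0 : (Fin s → ℕ) → (Fin s → ℕ) → ℕ)
    (ha0 : ∀ k a, (∀ i, a i < b i ^ k i) →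
      ∀ n : ℕ, (∀ i, n % b i ^ k i = a i) ↔ n % (∏ i, b i ^ k i) = a0 k a) :
    ∏ i, H i = ∑ k ∈ Fintype.piFinset (fun _ : Fin s => range (K + 1)),
      ∑ a ∈ Fintype.piFinset (fun i => range (b i ^ k i)),
        (∏ i, c i (k i) (a i)) * (if n % (∏ i, b i ^ k i) = a0 k a then 1 else 0) := by
  rw [Finset.prod_congr rfl fun i _ => hH i, Finset.prod_univ_sum]
  refine Finset.sum_congr rfl fun k _ => ?_
  rw [Finset.prod_univ_sum]
  refine Finset.sum_congr rfl fun a ha => ?_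
  rw [Finset.prod_mul_distrib, ← ind_all]
  have h1 : ∀ i, a i < b i ^ k i := fun i => mem_range.1 (Fintype.mem_piFinset.1 ha i)
  rw [if_congr (ha0 k a h1 n) rfl rfl]

/-- products of one-dimensional sums -/
lemma prod_sums {s : ℕ} (R : Fin s → ℕ → Finset ℕ) (T : Finset ℕ) (f : Fin s → ℕ → ℕ → ℝ) :
    ∏ i, ∑ k ∈ T, ∑ a ∈ R i k, f i k a = ∑ k ∈ Fintype.piFinset (fun _ : Fin s => T),
      ∑ a ∈ Fintype.piFinset (fun i => R i (k i)), ∏ i, f i (k i) (a i) := by
  rw [Finset.prod_univ_sum]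
  refine Finset.sum_congr rfl fun k _ => ?_
  rw [Finset.prod_univ_sum]

end BoxL

open BoxL

/-- **Sum over the classes.** -/
theorem t_BOX (hHAL : S_HAL) (hCRT : S_CRT) (hCLS : S_CLS) : S_BOX := by
  intro s t b hb hinj
  have hP0 : (0 : ℝ) ≤ ∏ i, (2 * (b i : ℝ)) := Finset.prod_nonneg fun i _ => by positivity
  refine ⟨(∏ i, (2 * (b i : ℝ))) * (t + 1) + (1 + 2 * s * 3 ^ s), by positivity, ?_⟩
  intro N _ g B hB
  set C : ℝ := (∏ i, (2 * (b i : ℝ))) * (t + 1) + (1 + 2 * s * 3 ^ s) with hC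
  have hN0 : 0 < N := Nat.pos_of_ne_zero (NeZero.ne N)
  have hN : (0 : ℝ) < N := by exact_mod_cast hN0
  have hB0 : ∀ k ∈ Ks N s, 0 ≤ B k := by
    intro k hk
    exact (abs_nonneg _).trans (hB k hk 0 0 0 0 (Nat.zero_le _) fun _ => Nat.zero_le _)
  set L : ℝ := (Nat.log 2 N : ℝ) + 2 with hL
  have hL1 : 1 ≤ L := by
    have : (0 : ℝ) ≤ (Nat.log 2 N : ℝ) := Nat.cast_nonneg _
    linarith
  have hLs : 1 ≤ L ^ s := one_le_pow₀ hL1
  have hSB : 0 ≤ ∑ k ∈ Ks N s, B k := Finset.sum_nonneg hB0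
  have hC0 : 0 ≤ C := by
    rw [hC]
    positivity
  suffices hmain : ∀ u v : Option (Fin s ⊕ Fin t) → ℝ, (∀ i, 0 ≤ u i ∧ u i ≤ v i ∧ v i ≤ 1) →
      |(((range N).filter fun n => ∀ i, u i ≤ pt b N g n i ∧ pt b N g n i < v i).card : ℝ) -
        N * ∏ i, (v i - u i)| ≤ C * (L ^ s + ∑ k ∈ Ks N s, B k) by
    have h1 : disc N (pt b N g) ≤ C * (L ^ s + ∑ k ∈ Ks N s, B k) / N := by
      refine Real.sSup_le ?_ (by positivity)
      rintro r ⟨u, v, huv, rfl⟩
      rw [le_div_iff₀ hN, ← abs_of_pos hN, ← abs_mul, abs_of_pos hN, sub_mul,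
        div_mul_cancel₀ _ hN.ne', mul_comm (∏ i, (v i - u i)) (N : ℝ)]
      exact hmain u v huv
    rw [le_div_iff₀ hN] at h1
    linarith
  intro u v huv
  set K : ℕ := Nat.log 2 N + 1 with hK
  have hNK : ∀ i, N < b i ^ K := fun i =>
    (Nat.lt_pow_succ_log_self (by norm_num) N).trans_le (Nat.pow_le_pow_left (hb i).two_le _)
  -- the Halton coordinates
  choose c hc1 hc2 hc3 using fun i => hHAL (b i) (hb i).two_le K (u (some (Sum.inl i)))
    (v (some (Sum.inl i))) (huv _).1 (huv _).2.1 (huv _).2.2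
  have hcrt : ∀ k a : Fin s → ℕ, ∃ x : ℕ, (∀ i, a i < b i ^ k i) → x < ∏ i, b i ^ k i ∧
      ∀ n : ℕ, (∀ i, n % b i ^ k i = a i) ↔ n % (∏ i, b i ^ k i) = x := by
    intro k a
    by_cases h : ∀ i, a i < b i ^ k i
    · obtain ⟨x, hx1, hx2⟩ := hCRT s b hb hinj k a h
      exact ⟨x, fun _ => ⟨hx1, hx2⟩⟩
    · exact ⟨0, fun h' => absurd h' h⟩
  choose a0 ha0 using hcrt
  -- the first coordinate
  set m1 : ℕ := ⌈u none * N⌉₊ with hm1
  set m2 : ℕ := ⌈v none * N⌉₊ with hm2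
  have hm12 : m1 ≤ m2 := Nat.ceil_mono (mul_le_mul_of_nonneg_right (huv none).2.1 hN.le)
  have hm2N : m2 ≤ N := by
    rw [hm2, Nat.ceil_le]
    calc v none * N ≤ 1 * N := mul_le_mul_of_nonneg_right (huv none).2.2 hN.le
      _ = N := one_mul _
  have hset : ((range N).filter fun n => ∀ i, u i ≤ pt b N g n i ∧ pt b N g n i < v i) =
      (Ico m1 m2).filter (fun n => (∀ i, u (some (Sum.inl i)) ≤ radInv (b i) n ∧
        radInv (b i) n < v (some (Sum.inl i))) ∧ ∀ j, u (some (Sum.inr j)) ≤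
          Int.fract ((n : ℝ) * g j / N) ∧ Int.fract ((n : ℝ) * g j / N) < v (some (Sum.inr j))) := by
    ext n
    rw [mem_filter, mem_filter, mem_range, mem_Ico]
    have hn1 : u none ≤ (n : ℝ) / N ↔ m1 ≤ n := by
      rw [le_div_iff₀ hN, hm1, Nat.ceil_le]
    have hn2 : (n : ℝ) / N < v none ↔ n < m2 := by
      rw [div_lt_iff₀ hN, hm2, Nat.lt_ceil]
    constructor
    · rintro ⟨h1, h2⟩
      have h3 := h2 none
      exact ⟨⟨hn1.1 h3.1, hn2.1 h3.2⟩, fun i => h2 (some (Sum.inl i)), fun j => h2 (some (Sum.inr j))⟩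
    · rintro ⟨⟨h1, h2⟩, h3, h4⟩
      refine ⟨h2.trans_le hm2N, ?_⟩
      rintro (_ | (i | j))
      · exact ⟨hn1.2 h1, hn2.2 h2⟩
      · exact h3 i
      · exact h4 j
  have hcount : (((range N).filter fun n => ∀ i, u i ≤ pt b N g n i ∧ pt b N g n i < v i).card : ℝ) =
      ∑ k ∈ Ks N s, ∑ a ∈ Fintype.piFinset (fun i => range (b i ^ k i)), (∏ i, c i (k i) (a i)) *
        (((Ico m1 m2).filter fun n => n % (∏ i, b i ^ k i) = a0 k a ∧ ∀ j, u (some (Sum.inr j)) ≤
          Int.fract ((n : ℝ) * g j / N) ∧ Int.fract ((n : ℝ) * g j / N) < v (some (Sum.inr j))).card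
            : ℝ) := by
    rw [hset, Finset.card_filter, Nat.cast_sum]
    have h1 : ∀ n ∈ Ico m1 m2, ((if ((∀ i, u (some (Sum.inl i)) ≤ radInv (b i) n ∧
        radInv (b i) n < v (some (Sum.inl i))) ∧ ∀ j, u (some (Sum.inr j)) ≤
          Int.fract ((n : ℝ) * g j / N) ∧ Int.fract ((n : ℝ) * g j / N) < v (some (Sum.inr j)))
            then 1 else 0 : ℕ) : ℝ) =
        ∑ k ∈ Ks N s, ∑ a ∈ Fintype.piFinset (fun i => range (b i ^ k i)), (∏ i, c i (k i) (a i)) *
          (if (n % (∏ i, b i ^ k i) = a0 k a ∧ ∀ j, u (some (Sum.inr j)) ≤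
          Int.fract ((n : ℝ) * g j / N) ∧ Int.fract ((n : ℝ) * g j / N) < v (some (Sum.inr j)))
            then 1 else 0) := by
      intro n hn
      have hnN : n < N := (mem_Ico.1 hn).2.trans_le hm2N
      have h2 : (if ∀ i, u (some (Sum.inl i)) ≤ radInv (b i) n ∧
          radInv (b i) n < v (some (Sum.inl i)) then (1 : ℝ) else 0) =
          ∑ k ∈ Ks N s, ∑ a ∈ Fintype.piFinset (fun i => range (b i ^ k i)),
            (∏ i, c i (k i) (a i)) * (if n % (∏ i, b i ^ k i) = a0 k a then 1 else 0) := by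
        rw [ind_all]
        exact expand _ (fun i => hc1 i n (hnN.trans (hNK i))) a0 fun k a h => (ha0 k a h).2
      by_cases h3 : ∀ j, u (some (Sum.inr j)) ≤ Int.fract ((n : ℝ) * g j / N) ∧
          Int.fract ((n : ℝ) * g j / N) < v (some (Sum.inr j))
      · simp only [h3, and_true, implies_true]
        rw [← h2]
        push_cast
        rfl
      · simp only [h3, and_false, if_false, mul_zero, Finset.sum_const_zero, Nat.cast_zero]
    rw [Finset.sum_congr rfl h1, Finset.sum_comm]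
    refine Finset.sum_congr rfl fun k _ => ?_
    rw [Finset.sum_comm]
    refine Finset.sum_congr rfl fun a _ => ?_
    rw [← Finset.mul_sum, Finset.card_filter, Nat.cast_sum]
    congr 1
    refine Finset.sum_congr rfl fun n _ => ?_
    push_cast
    rfl
  -- the volume
  set Vt : ℝ := ∏ j : Fin t, (v (some (Sum.inr j)) - u (some (Sum.inr j))) with hVt
  set Vs : ℝ := ∏ i : Fin s, (v (some (Sum.inl i)) - u (some (Sum.inl i))) with hVs
  have hvol : ∏ i, (v i - u i) = (v none - u none) * (Vs * Vt) := by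
    rw [Fintype.prod_option, Fintype.prod_sum_type]
  have hVt0 : 0 ≤ Vt := Finset.prod_nonneg fun j _ => by linarith [(huv (some (Sum.inr j))).2.1]
  have hVt1 : Vt ≤ 1 := Finset.prod_le_one
    (fun j _ => by linarith [(huv (some (Sum.inr j))).2.1])
    (fun j _ => by linarith [(huv (some (Sum.inr j))).1, (huv (some (Sum.inr j))).2.2])
  have hVs0 : 0 ≤ Vs := Finset.prod_nonneg fun j _ => by linarith [(huv (some (Sum.inl j))).2.1]
  have hVs1 : Vs ≤ 1 := Finset.prod_le_one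
    (fun j _ => by linarith [(huv (some (Sum.inl j))).2.1])
    (fun j _ => by linarith [(huv (some (Sum.inl j))).1, (huv (some (Sum.inl j))).2.2])
  -- the error terms
  have herr : |(((range N).filter fun n => ∀ i, u i ≤ pt b N g n i ∧ pt b N g n i < v i).card : ℝ) -
      ∑ k ∈ Ks N s, ∑ a ∈ Fintype.piFinset (fun i => range (b i ^ k i)), (∏ i, c i (k i) (a i)) *
        (((m2 : ℝ) - m1) / ((∏ i, b i ^ k i : ℕ) : ℝ) * Vt)| ≤
      (∏ i, (2 * (b i : ℝ))) * ∑ k ∈ Ks N s, (B k + (t + 1)) := by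
    rw [hcount, ← Finset.sum_sub_distrib, Finset.mul_sum]
    refine (Finset.abs_sum_le_sum_abs _ _).trans (Finset.sum_le_sum fun k hk => ?_)
    rw [← Finset.sum_sub_distrib]
    have h1 : ∑ a ∈ Fintype.piFinset (fun i => range (b i ^ k i)), |∏ i, c i (k i) (a i)| ≤
        ∏ i, (2 * (b i : ℝ)) := by
      have h2 : ∑ a ∈ Fintype.piFinset (fun i => range (b i ^ k i)), |∏ i, c i (k i) (a i)| =
          ∏ i, ∑ a ∈ range (b i ^ k i), |c i (k i) a| := by
        rw [Finset.prod_univ_sum]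
        exact Finset.sum_congr rfl fun a _ => Finset.abs_prod _ _
      rw [h2]
      exact Finset.prod_le_prod (fun i _ => Finset.sum_nonneg fun a _ => abs_nonneg _)
        fun i _ => hc2 i (k i)
    refine (Finset.abs_sum_le_sum_abs _ _).trans ?_
    have hQ0 : 0 < ∏ i, b i ^ k i := Finset.prod_pos fun i _ => pow_pos (hb i).pos _
    have h3 : ∀ a ∈ Fintype.piFinset (fun i => range (b i ^ k i)),
        |(∏ i, c i (k i) (a i)) * (((Ico m1 m2).filter fun n => n % (∏ i, b i ^ k i) = a0 k a ∧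
          ∀ j, u (some (Sum.inr j)) ≤ Int.fract ((n : ℝ) * g j / N) ∧
            Int.fract ((n : ℝ) * g j / N) < v (some (Sum.inr j))).card : ℝ) -
          (∏ i, c i (k i) (a i)) * (((m2 : ℝ) - m1) / ((∏ i, b i ^ k i : ℕ) : ℝ) * Vt)| ≤
        |∏ i, c i (k i) (a i)| * (B k + (t + 1)) := by
      intro a ha
      rw [← mul_sub, abs_mul]
      refine mul_le_mul_of_nonneg_left ?_ (abs_nonneg _)
      have h4 : ∀ i, a i < b i ^ k i := fun i => mem_range.1 (Fintype.mem_piFinset.1 ha i)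
      exact hCLS N t g (∏ i, b i ^ k i) (a0 k a) (B k) hQ0 (ha0 k a h4).1 (hB k hk) m1 m2
        (fun j => u (some (Sum.inr j))) (fun j => v (some (Sum.inr j))) hm12 hm2N fun j => huv _
    refine (Finset.sum_le_sum h3).trans ?_
    rw [← Finset.sum_mul]
    have h5 := hB0 k hk
    exact mul_le_mul_of_nonneg_right h1 (by positivity)
  -- the main term
  set S : Fin s → ℝ := fun i => ∑ k ∈ range (K + 1), ∑ a ∈ range (b i ^ k), c i k a / (b i : ℝ) ^ k
    with hS
  have hmainterm : ∑ k ∈ Ks N s, ∑ a ∈ Fintype.piFinset (fun i => range (b i ^ k i)),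
      (∏ i, c i (k i) (a i)) * (((m2 : ℝ) - m1) / ((∏ i, b i ^ k i : ℕ) : ℝ) * Vt) =
      ((m2 : ℝ) - m1) * Vt * ∏ i, S i := by
    rw [hS, prod_sums, Finset.mul_sum]
    refine Finset.sum_congr rfl fun k _ => ?_
    rw [Finset.mul_sum]
    refine Finset.sum_congr rfl fun a _ => ?_
    rw [Finset.prod_div_distrib]
    push_cast
    ring
  have hδ : ∀ i, |S i - (v (some (Sum.inl i)) - u (some (Sum.inl i)))| ≤ 2 / N := by
    intro i
    rw [abs_sub_comm]
    refine (hc3 i).trans ?_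
    have h1 : (N : ℝ) ≤ (b i : ℝ) ^ K := by exact_mod_cast (hNK i).le
    exact div_le_div_of_nonneg_left (by norm_num) hN h1
  have hN1 : (1 : ℝ) ≤ N := by exact_mod_cast hN0
  have h2N : 2 / (N : ℝ) ≤ 2 := by
    rw [div_le_iff₀ hN]
    linarith
  have hw : ∀ i : Fin s, |v (some (Sum.inl i)) - u (some (Sum.inl i))| ≤ 1 := by
    intro i
    have h1 := huv (some (Sum.inl i))
    rw [abs_le]
    constructor <;> linarith [h1.1, h1.2.1, h1.2.2]
  have hSabs : ∀ i, |S i| ≤ 3 := by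
    intro i
    have h1 : S i = (S i - (v (some (Sum.inl i)) - u (some (Sum.inl i)))) +
      (v (some (Sum.inl i)) - u (some (Sum.inl i))) := by ring
    rw [h1]
    refine (abs_add_le _ _).trans ?_
    linarith [hδ i, hw i]
  have hprod := prod_diff (Finset.univ : Finset (Fin s)) S
    (fun i => v (some (Sum.inl i)) - u (some (Sum.inl i))) (2 / N) (by positivity)
    (fun i _ => hSabs i) (fun i _ => (hw i).trans (by norm_num)) (fun i _ => hδ i)
  rw [Finset.card_univ, Fintype.card_fin] at hprod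
  have hm : |((m2 : ℝ) - m1) - N * (v none - u none)| ≤ 1 := by
    have h1 := Nat.le_ceil (u none * N)
    have h2 := Nat.ceil_lt_add_one (mul_nonneg (huv none).1 hN.le)
    have h3 := Nat.le_ceil (v none * N)
    have h4 := Nat.ceil_lt_add_one (mul_nonneg ((huv none).1.trans (huv none).2.1) hN.le)
    rw [← hm1] at h1 h2
    rw [← hm2] at h3 h4
    rw [abs_le]
    constructor <;> linarith
  have hmN : |((m2 : ℝ) - m1)| ≤ N := by
    have h1 : (m1 : ℝ) ≤ m2 := by exact_mod_cast hm12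
    have h2 : (m2 : ℝ) ≤ N := by exact_mod_cast hm2N
    have h3 : (0 : ℝ) ≤ m1 := Nat.cast_nonneg _
    rw [abs_le]
    constructor <;> linarith
  have hfin : |((m2 : ℝ) - m1) * Vt * ∏ i, S i - N * ∏ i, (v i - u i)| ≤ 1 + 2 * s * 3 ^ s := by
    rw [hvol]
    have h1 : ((m2 : ℝ) - m1) * Vt * ∏ i, S i - N * ((v none - u none) * (Vs * Vt)) =
        ((m2 : ℝ) - m1) * (Vt * (∏ i, S i - Vs)) +
          (((m2 : ℝ) - m1) - N * (v none - u none)) * (Vs * Vt) := by ring
    rw [h1]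
    refine (abs_add_le _ _).trans ?_
    rw [abs_mul, abs_mul, abs_mul]
    have h2 : |((m2 : ℝ) - m1)| * (|Vt| * |∏ i, S i - Vs|) ≤ N * (1 * (s * 3 ^ s * (2 / N))) := by
      refine mul_le_mul hmN (mul_le_mul ?_ hprod (abs_nonneg _) zero_le_one) (by positivity) hN.le
      rw [abs_of_nonneg hVt0]
      exact hVt1
    have h3 : (N : ℝ) * (1 * (s * 3 ^ s * (2 / N))) = 2 * s * 3 ^ s := by
      field_simp
    have h4 : |((m2 : ℝ) - m1) - N * (v none - u none)| * |Vs * Vt| ≤ 1 * 1 := by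
      refine mul_le_mul hm ?_ (abs_nonneg _) zero_le_one
      rw [abs_of_nonneg (mul_nonneg hVs0 hVt0)]
      exact mul_le_one₀ hVs1 hVt0 hVt1
    linarith
  rw [hmainterm] at herr
  have hcard : ((Ks N s).card : ℝ) = L ^ s := by
    unfold Ks
    rw [Fintype.card_piFinset, Finset.prod_const, Finset.card_univ, Fintype.card_fin, card_range]
    push_cast
    rw [hL]
  have hsum : ∑ k ∈ Ks N s, (B k + ((t : ℝ) + 1)) = ∑ k ∈ Ks N s, B k + (t + 1) * L ^ s := by
    rw [Finset.sum_add_distrib, Finset.sum_const, nsmul_eq_mul, hcard]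
    ring
  rw [hsum] at herr
  have htot : |(((range N).filter fun n => ∀ i, u i ≤ pt b N g n i ∧ pt b N g n i < v i).card : ℝ) -
      N * ∏ i, (v i - u i)| ≤ (∏ i, (2 * (b i : ℝ))) * (∑ k ∈ Ks N s, B k + (t + 1) * L ^ s) +
        (1 + 2 * s * 3 ^ s) := by
    refine (abs_sub_le _ (((m2 : ℝ) - m1) * Vt * ∏ i, S i) _).trans (add_le_add herr hfin)
  refine htot.trans ?_
  set P : ℝ := ∏ i, (2 * (b i : ℝ)) with hP
  have hs0 : (0 : ℝ) ≤ 1 + 2 * s * 3 ^ s := by positivity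
  have ht0 : (0 : ℝ) ≤ t := Nat.cast_nonneg _
  have e1 : P * ∑ k ∈ Ks N s, B k ≤ P * (t + 1) * ∑ k ∈ Ks N s, B k := by
    have : 0 ≤ P * t * ∑ k ∈ Ks N s, B k := by positivity
    nlinarith
  have e2 : (1 + 2 * (s : ℝ) * 3 ^ s) ≤ (1 + 2 * s * 3 ^ s) * (L ^ s + ∑ k ∈ Ks N s, B k) := by
    refine le_mul_of_one_le_right hs0 ?_
    linarith
  calc P * (∑ k ∈ Ks N s, B k + (t + 1) * L ^ s) + (1 + 2 * s * 3 ^ s) =
      P * ∑ k ∈ Ks N s, B k + P * (t + 1) * L ^ s + (1 + 2 * s * 3 ^ s) := by ring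
    _ ≤ P * (t + 1) * ∑ k ∈ Ks N s, B k + P * (t + 1) * L ^ s +
        (1 + 2 * s * 3 ^ s) * (L ^ s + ∑ k ∈ Ks N s, B k) := by linarith
    _ = C * (L ^ s + ∑ k ∈ Ks N s, B k) := by
        rw [hC]
        ring

end

end Pool.Agent.H484.HH
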